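import Mathlib

set_option autoImplicit false

namespace Pool.Agent.Lib.MP_90343c_al

/-- Affine group of the right regular rational representation of a group `Q`. -/
structure Aff (Q : Type*) where
  v : Q → ℚ
  g : Q

variable {Q : Type*} [Group Q]

/-- right regular representation on rational functions -/
def R (g : Q) : (Q → ℚ) →ₗ[ℚ] (Q → ℚ) := LinearMap.funLeft ℚ ℚ (fun x => x * g)

@[simp] theorem R_apply (g : Q) (v : Q → ℚ) (x : Q) : R g v x = v (x * g) := rfl

theorem R_mul (g h : Q) (v : Q → ℚ) : R (g * h) v = R g (R h v) := by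
  funext x
  simp [mul_assoc]

@[simp] theorem R_one (v : Q → ℚ) : R (1 : Q) v = v := by
  funext x
  simp

namespace Aff

theorem ext' {a b : Aff Q} (h1 : a.v = b.v) (h2 : a.g = b.g) : a = b := by
  cases a; cases b; simp_all

instance : Mul (Aff Q) := ⟨fun a b => ⟨a.v + R a.g b.v, a.g * b.g⟩⟩
instance : One (Aff Q) := ⟨⟨0, 1⟩⟩
instance : Inv (Aff Q) := ⟨fun a => ⟨- R a.g⁻¹ a.v, a.g⁻¹⟩⟩

@[simp] theorem mul_v (a b : Aff Q) : (a * b).v = a.v + R a.g b.v := rfl
@[simp] theorem mul_g (a b : Aff Q) : (a * b).g = a.g * b.g := rfl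
@[simp] theorem one_v : (1 : Aff Q).v = 0 := rfl
@[simp] theorem one_g : (1 : Aff Q).g = 1 := rfl
@[simp] theorem inv_v (a : Aff Q) : (a⁻¹).v = - R a.g⁻¹ a.v := rfl
@[simp] theorem inv_g (a : Aff Q) : (a⁻¹).g = a.g⁻¹ := rfl

instance : Group (Aff Q) := Group.ofLeftAxioms
  (by
    intro a b c
    apply ext'
    · simp only [mul_v, mul_g, R_mul, map_add, add_assoc]
    · simp [mul_assoc])
  (by
    intro a
    apply ext'
    · simp
    · simp)
  (by
    intro a
    apply ext'
    · simp
    · simp)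

/-- projection to the linear part -/
def proj : Aff Q →* Q where
  toFun a := a.g
  map_one' := rfl
  map_mul' _ _ := rfl

@[simp] theorem proj_apply (a : Aff Q) : proj a = a.g := rfl

end Aff

/-- The norm operator `1 + g + ... + g^(n-1)`. -/
def Nm (g : Q) (n : ℕ) : (Q → ℚ) →ₗ[ℚ] (Q → ℚ) := ∑ i ∈ Finset.range n, R (g ^ i)

theorem Aff.pow_g (a : Aff Q) (n : ℕ) : (a ^ n).g = a.g ^ n := by
  have := map_pow (Aff.proj : Aff Q →* Q) a n
  simpa using this

theorem Aff.pow_v (a : Aff Q) (n : ℕ) : (a ^ n).v = Nm a.g n a.v := by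
  induction n with
  | zero => simp [Nm]
  | succ n ih =>
    rw [pow_succ, Aff.mul_v, ih, Aff.pow_g]
    simp [Nm, Finset.sum_range_succ]

/-- Rank of the norm operator is at most the number of cosets of the cyclic group. -/
theorem finrank_range_Nm [Finite Q] (g : Q) (n : ℕ) (hg : orderOf g = n) (hn : 0 < n) :
    n * Module.finrank ℚ (LinearMap.range (Nm g n)) ≤ Nat.card Q := by
  classical
  have := Fintype.ofFinite Q
  have := Fintype.ofFinite (Q ⧸ Subgroup.zpowers g)
  -- range of Nm is contained in the range of pullback from the quotient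
  let π : ((Q ⧸ Subgroup.zpowers g) → ℚ) →ₗ[ℚ] (Q → ℚ) :=
    LinearMap.funLeft ℚ ℚ (fun x => (QuotientGroup.mk x : Q ⧸ Subgroup.zpowers g))
  have hfix : ∀ v : Q → ℚ, ∀ x : Q, (Nm g n v) (x * g) = Nm g n v x := by
    intro v x
    simp only [Nm, LinearMap.sum_apply, Finset.sum_apply, R_apply]
    have h1 : ∀ i : ℕ, v (x * g * g ^ i) = v (x * g ^ (i + 1)) := by
      intro i
      rw [mul_assoc, ← pow_succ']
    simp only [h1]
    have h2 := Finset.sum_range_succ (fun i => v (x * g ^ i)) n
    have h3 := Finset.sum_range_succ' (fun i => v (x * g ^ i)) n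
    rw [h2] at h3
    have h4 : g ^ n = 1 := by rw [← hg]; exact pow_orderOf_eq_one g
    simp only [h4, pow_zero] at h3
    linarith
  have hle : LinearMap.range (Nm g n) ≤ LinearMap.range π := by
    rintro _ ⟨v, rfl⟩
    have hz : ∀ x y : Q, (QuotientGroup.mk x : Q ⧸ Subgroup.zpowers g) = QuotientGroup.mk y →
        Nm g n v x = Nm g n v y := by
      intro x y hxy
      rw [QuotientGroup.eq] at hxy
      obtain ⟨k, hk⟩ := Subgroup.mem_zpowers_iff.1 hxy
      have hy : y = x * g ^ k := by rw [hk]; group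
      have hpow : ∀ m : ℕ, ∀ z : Q, Nm g n v (z * g ^ m) = Nm g n v z := by
        intro m
        induction m with
        | zero => intro z; simp
        | succ m ih =>
          intro z
          rw [pow_succ, ← mul_assoc, hfix, ih]
      have hk' : ∃ m : ℕ, g ^ k = g ^ m := by
        refine ⟨(k % (n : ℤ)).toNat, ?_⟩
        have hpos : (0 : ℤ) ≤ k % (n : ℤ) := Int.emod_nonneg _ (by exact_mod_cast hn.ne')
        rw [← zpow_natCast g, Int.toNat_of_nonneg hpos, ← hg, zpow_mod_orderOf]
      obtain ⟨m, hm⟩ := hk'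
      rw [hy, hm, hpow]
    refine ⟨fun q => Nm g n v q.out, ?_⟩
    funext x
    show Nm g n v ((QuotientGroup.mk x : Q ⧸ Subgroup.zpowers g).out) = _
    apply hz
    exact Quotient.out_eq' _
  have h5 : Module.finrank ℚ (LinearMap.range (Nm g n)) ≤ Nat.card (Q ⧸ Subgroup.zpowers g) := by
    calc Module.finrank ℚ (LinearMap.range (Nm g n)) ≤ Module.finrank ℚ (LinearMap.range π) :=
          Submodule.finrank_mono hle
      _ ≤ Module.finrank ℚ ((Q ⧸ Subgroup.zpowers g) → ℚ) := LinearMap.finrank_range_le π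
      _ = Nat.card (Q ⧸ Subgroup.zpowers g) := by
          rw [Module.finrank_fintype_fun_eq_card, Nat.card_eq_fintype_card]
  have h6 := Subgroup.card_eq_card_quotient_mul_card_subgroup (Subgroup.zpowers g)
  rw [Nat.card_zpowers, hg] at h6
  rw [h6, mul_comm]
  exact Nat.mul_le_mul_right _ h5

/-- There is a pair of translation parts killed by the three relations, which is not a coboundary. -/
theorem exists_pair [Finite Q] (a b : Q) (p : ℕ) (hp : 6 ≤ p) (ha : orderOf a = p)
    (hb : orderOf b = 2) (hab : orderOf (a * b) = 3) :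
    ∃ u w : Q → ℚ, Nm a p u = 0 ∧ Nm b 2 w = 0 ∧ Nm (a * b) 3 (u + R a w) = 0 ∧
      ¬ ∃ v : Q → ℚ, u = R a v - v ∧ w = R b v - v := by
  classical
  have := Fintype.ofFinite Q
  set m := Nat.card Q with hm
  let V := Q → ℚ
  have hV : Module.finrank ℚ V = m := by
    rw [Module.finrank_fintype_fun_eq_card, hm, Nat.card_eq_fintype_card]
  let T1 : (V × V) →ₗ[ℚ] V := (Nm a p) ∘ₗ LinearMap.fst ℚ V V
  let T2 : (V × V) →ₗ[ℚ] V := (Nm b 2) ∘ₗ LinearMap.snd ℚ V V
  let T3 : (V × V) →ₗ[ℚ] V :=
    (Nm (a * b) 3) ∘ₗ (LinearMap.fst ℚ V V + (R a) ∘ₗ LinearMap.snd ℚ V V)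
  let D : V →ₗ[ℚ] (V × V) := LinearMap.prod (R a - LinearMap.id) (R b - LinearMap.id)
  have r1 : Module.finrank ℚ (LinearMap.range T1) ≤ Module.finrank ℚ (LinearMap.range (Nm a p)) :=
    Submodule.finrank_mono (LinearMap.range_comp_le_range _ _)
  have r2 : Module.finrank ℚ (LinearMap.range T2) ≤ Module.finrank ℚ (LinearMap.range (Nm b 2)) :=
    Submodule.finrank_mono (LinearMap.range_comp_le_range _ _)
  have r3 : Module.finrank ℚ (LinearMap.range T3) ≤
      Module.finrank ℚ (LinearMap.range (Nm (a * b) 3)) :=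
    Submodule.finrank_mono (LinearMap.range_comp_le_range _ _)
  have k1 := LinearMap.finrank_range_add_finrank_ker T1
  have k2 := LinearMap.finrank_range_add_finrank_ker T2
  have k3 := LinearMap.finrank_range_add_finrank_ker T3
  have kD := LinearMap.finrank_range_add_finrank_ker D
  have hVV : Module.finrank ℚ (V × V) = 2 * m := by
    rw [Module.finrank_prod, hV]; ring
  rw [hVV] at k1 k2 k3
  rw [hV] at kD
  have hDker : 1 ≤ Module.finrank ℚ (LinearMap.ker D) := by
    rw [Nat.one_le_iff_ne_zero, Ne, Submodule.finrank_eq_zero]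
    intro h0
    have h1 : (fun _ => 1 : V) ∈ LinearMap.ker D := by
      rw [LinearMap.mem_ker]
      apply Prod.ext
      · show R a (fun _ => (1 : ℚ)) - (fun _ => (1 : ℚ)) = 0
        funext x
        simp
      · show R b (fun _ => (1 : ℚ)) - (fun _ => (1 : ℚ)) = 0
        funext x
        simp
    rw [h0, Submodule.mem_bot] at h1
    have := congrFun h1 1
    simp at this
  have n1 := finrank_range_Nm a p ha (by omega)
  have n2 := finrank_range_Nm b 2 hb (by omega)
  have n3 := finrank_range_Nm (a * b) 3 hab (by omega)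
  -- intersection of kernels
  set K := LinearMap.ker T1 ⊓ LinearMap.ker T2 ⊓ LinearMap.ker T3 with hK
  have i1 := Submodule.finrank_sup_add_finrank_inf_eq (LinearMap.ker T1) (LinearMap.ker T2)
  have i2 := Submodule.finrank_sup_add_finrank_inf_eq (LinearMap.ker T1 ⊓ LinearMap.ker T2)
    (LinearMap.ker T3)
  have s1 : Module.finrank ℚ ↥(LinearMap.ker T1 ⊔ LinearMap.ker T2) ≤ 2 * m := by
    rw [← hVV]; exact Submodule.finrank_le _
  have s2 : Module.finrank ℚ ↥(LinearMap.ker T1 ⊓ LinearMap.ker T2 ⊔ LinearMap.ker T3) ≤ 2 * m := by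
    rw [← hVV]; exact Submodule.finrank_le _
  have hlt : Module.finrank ℚ (LinearMap.range D) < Module.finrank ℚ K := by
    rw [← hK] at i2
    have n1' : 6 * Module.finrank ℚ (LinearMap.range (Nm a p)) ≤ m :=
      le_trans (Nat.mul_le_mul_right _ hp) n1
    omega
  have hnot : ¬ (K ≤ LinearMap.range D) := by
    intro hle
    exact absurd (Submodule.finrank_mono hle) (by omega)
  rw [SetLike.not_le_iff_exists] at hnot
  obtain ⟨⟨u, w⟩, hx, hnx⟩ := hnot
  rw [hK, Submodule.mem_inf, Submodule.mem_inf] at hx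
  refine ⟨u, w, hx.1.1, hx.1.2, hx.2, ?_⟩
  rintro ⟨v, hv1, hv2⟩
  apply hnx
  refine ⟨v, ?_⟩
  apply Prod.ext
  · exact hv1.symm
  · exact hv2.symm

/-- Cocycle averaging: if the kernel of a surjection onto a finite group has finite abelianization,
then all lifts to the affine group are conjugate to the trivial one. -/
theorem coboundary_of_finite {G : Type*} [Group G] [Finite Q] (φ : G →* Q)
    (hφ : Function.Surjective φ) (hfin : Finite (Abelianization φ.ker)) (Φ : G →* Aff Q)
    (hΦ : ∀ x, (Φ x).g = φ x) : ∃ v : Q → ℚ, ∀ x, (Φ x).v = R (φ x) v - v := by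
  classical
  have := Fintype.ofFinite Q
  -- restriction to the kernel vanishes
  have hker : ∀ n : G, φ n = 1 → (Φ n).v = 0 := by
    let h : φ.ker →* Multiplicative (Q → ℚ) :=
      { toFun := fun n => Multiplicative.ofAdd (Φ n.1).v
        map_one' := by simp
        map_mul' := by
          intro x y
          have hx : (Φ x.1).g = 1 := by rw [hΦ]; exact x.2
          rw [← ofAdd_add]
          congr 1
          simp [hx] }
    intro n hn
    let n' : φ.ker := ⟨n, hn⟩
    have h1 : (Abelianization.lift h) (Abelianization.of n') = h n' :=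
      Abelianization.lift_apply_of h n'
    have h2 : (Abelianization.of n') ^ (Nat.card (Abelianization φ.ker)) = 1 := pow_card_eq_one'
    have h3 : (h n') ^ (Nat.card (Abelianization φ.ker)) = 1 := by
      rw [← h1, ← map_pow, h2, map_one]
    have h4 : (Nat.card (Abelianization φ.ker)) • (Φ n).v = 0 := by
      have := congrArg Multiplicative.toAdd h3
      simpa [h] using this
    have h5 : Nat.card (Abelianization φ.ker) ≠ 0 := Nat.card_pos.ne'
    rcases smul_eq_zero.1 h4 with h6 | h6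
    · exact absurd h6 h5
    · exact h6
  have hdep : ∀ x y : G, φ x = φ y → (Φ x).v = (Φ y).v := by
    intro x y hxy
    have h1 : φ (y⁻¹ * x) = 1 := by rw [map_mul, map_inv, hxy]; simp
    have h2 := hker _ h1
    have h3 : Φ x = Φ y * Φ (y⁻¹ * x) := by rw [← map_mul]; simp
    rw [h3, Aff.mul_v, h2]
    simp
  choose s hs using hφ
  let c : Q → (Q → ℚ) := fun q => (Φ (s q)).v
  have hc : ∀ x : G, c (φ x) = (Φ x).v := fun x => hdep _ _ (hs _)
  have hcoc : ∀ (x : G) (q : Q), c (φ x * q) = (Φ x).v + R (φ x) (c q) := by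
    intro x q
    have h1 : φ x * q = φ (x * s q) := by rw [map_mul, hs]
    rw [h1, hc, map_mul, Aff.mul_v, hΦ]
  obtain ⟨S, hSdef⟩ : ∃ S : Q → ℚ, S = ∑ q, c q := ⟨_, rfl⟩
  have hS : ∀ x : G, S = (Fintype.card Q : ℚ) • (Φ x).v + R (φ x) S := by
    intro x
    have h1 : S = ∑ q, c (φ x * q) := by
      rw [hSdef]
      exact (Fintype.sum_equiv (Equiv.mulLeft (φ x)) _ _ (fun q => rfl)).symm
    have h2 : ∑ q, c (φ x * q) = (Fintype.card Q : ℚ) • (Φ x).v + R (φ x) S := by
      simp only [hcoc, Finset.sum_add_distrib, Finset.sum_const, Finset.card_univ]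
      rw [← map_sum, ← Nat.cast_smul_eq_nsmul ℚ, ← hSdef]
    rw [← h2]
    exact h1
  have hm : (Fintype.card Q : ℚ) ≠ 0 := by
    exact_mod_cast Fintype.card_ne_zero
  refine ⟨-((Fintype.card Q : ℚ)⁻¹ • S), fun x => ?_⟩
  have h := hS x
  have h2 : (Fintype.card Q : ℚ) • (Φ x).v = S - R (φ x) S := by
    rw [eq_sub_iff_add_eq]; exact h.symm
  have h3 : (Φ x).v = (Fintype.card Q : ℚ)⁻¹ • (S - R (φ x) S) := by
    rw [← h2, smul_smul, inv_mul_cancel₀ hm, one_smul]
  rw [h3, map_neg, map_smul, smul_sub]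
  abel

end Pool.Agent.Lib.MP_90343c_al
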