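import Mathlib

set_option autoImplicit false

namespace Pool.Agent.Lib.MP_90343c_al

open Matrix

variable {F : Type*} [Field F]

/-- upper unipotent -/
def tm (F : Type*) [Field F] (x : F) : SpecialLinearGroup (Fin 2) F :=
  ⟨!![1, x; 0, 1], by simp [Matrix.det_fin_two]⟩

/-- lower unipotent -/
def lm (F : Type*) [Field F] (x : F) : SpecialLinearGroup (Fin 2) F :=
  ⟨!![1, 0; x, 1], by simp [Matrix.det_fin_two]⟩

/-- Weyl element -/
def wm (F : Type*) [Field F] : SpecialLinearGroup (Fin 2) F :=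
  ⟨!![0, 1; -1, 0], by simp [Matrix.det_fin_two]⟩

theorem tm_coe (x : F) : (tm F x : Matrix (Fin 2) (Fin 2) F) = !![1, x; 0, 1] := rfl
theorem lm_coe (x : F) : (lm F x : Matrix (Fin 2) (Fin 2) F) = !![1, 0; x, 1] := rfl
theorem wm_coe : (wm F : Matrix (Fin 2) (Fin 2) F) = !![0, 1; -1, 0] := rfl

theorem tm_mul (x y : F) : tm F x * tm F y = tm F (x + y) := by
  ext i j
  fin_cases i <;> fin_cases j <;> simp [tm_coe, Matrix.mul_apply, Fin.sum_univ_two, add_comm]

theorem tm_zero : tm F 0 = 1 := by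
  ext i j
  fin_cases i <;> fin_cases j <;> simp [tm_coe]

theorem tm_pow (x : F) (n : ℕ) : tm F x ^ n = tm F (n * x) := by
  induction n with
  | zero => simp [tm_zero]
  | succ n ih => rw [pow_succ, ih, tm_mul]; congr 1; push_cast; ring

theorem wm_tm_wm (x : F) : wm F * tm F x * (wm F)⁻¹ = lm F (-x) := by
  rw [mul_inv_eq_iff_eq_mul]
  ext i j
  fin_cases i <;> fin_cases j <;> simp [tm_coe, lm_coe, wm_coe, Matrix.mul_apply, Fin.sum_univ_two]

/-- elementary decomposition -/
theorem decomp_ne (g : SpecialLinearGroup (Fin 2) F) (hc : g 1 0 ≠ 0) :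
    g = tm F ((g 0 0 - 1) / g 1 0) * lm F (g 1 0) * tm F ((g 1 1 - 1) / g 1 0) := by
  have hdet : g 0 0 * g 1 1 - g 0 1 * g 1 0 = 1 := by
    have := g.2
    rwa [Matrix.det_fin_two] at this
  ext i j
  fin_cases i <;> fin_cases j
  · simp [tm_coe, lm_coe, Matrix.mul_apply, Fin.sum_univ_two]
    field_simp
    ring
  · simp [tm_coe, lm_coe, Matrix.mul_apply, Fin.sum_univ_two]
    field_simp
    linear_combination (-1 : F) * hdet
  · simp [tm_coe, lm_coe, Matrix.mul_apply, Fin.sum_univ_two]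
  · simp [tm_coe, lm_coe, Matrix.mul_apply, Fin.sum_univ_two]
    field_simp
    ring

variable (p : ℕ) [Fact p.Prime]

theorem gen (H : Subgroup (SpecialLinearGroup (Fin 2) (ZMod p))) (h1 : tm (ZMod p) 1 ∈ H)
    (h2 : wm (ZMod p) ∈ H) : H = ⊤ := by
  have ht : ∀ x : ZMod p, tm (ZMod p) x ∈ H := by
    intro x
    have h3 : tm (ZMod p) x = tm (ZMod p) 1 ^ (x.val) := by
      rw [tm_pow]
      congr 1
      simp
    rw [h3]
    exact H.pow_mem h1 _
  have hl : ∀ x : ZMod p, lm (ZMod p) x ∈ H := by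
    intro x
    have h3 := wm_tm_wm (F := ZMod p) (-x)
    rw [neg_neg] at h3
    rw [← h3]
    exact H.mul_mem (H.mul_mem h2 (ht _)) (H.inv_mem h2)
  have hne : ∀ g : SpecialLinearGroup (Fin 2) (ZMod p), g 1 0 ≠ 0 → g ∈ H := by
    intro g hg
    rw [decomp_ne g hg]
    exact H.mul_mem (H.mul_mem (ht _) (hl _)) (ht _)
  rw [Subgroup.eq_top_iff']
  intro g
  by_cases hg : g 1 0 = 0
  · have hdet : g 0 0 * g 1 1 - g 0 1 * g 1 0 = 1 := by
      have := g.2
      rwa [Matrix.det_fin_two] at this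
    have h00 : g 0 0 ≠ 0 := by
      intro h0
      rw [h0, hg] at hdet
      simp at hdet
    have h5 : (lm (ZMod p) 1 * g) 1 0 ≠ 0 := by
      simp [lm_coe, Matrix.mul_apply, Fin.sum_univ_two, hg, h00]
    have h6 := hne _ h5
    exact (Subgroup.mul_mem_cancel_left H (hl 1)).1 h6
  · exact hne g hg

/-- `PSL_2(p)` -/
abbrev PSL (p : ℕ) [Fact p.Prime] := SpecialLinearGroup (Fin 2) (ZMod p) ⧸
  Subgroup.center (SpecialLinearGroup (Fin 2) (ZMod p))

/-- image of the translation -/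
def aa : PSL p := QuotientGroup.mk (tm (ZMod p) 1)
/-- image of the Weyl element -/
def bb : PSL p := QuotientGroup.mk (wm (ZMod p))

theorem neg_one_mem : (-1 : SpecialLinearGroup (Fin 2) (ZMod p)) ∈
    Subgroup.center (SpecialLinearGroup (Fin 2) (ZMod p)) := by
  rw [Subgroup.mem_center_iff]
  intro g
  simp

theorem wm_sq : (wm (ZMod p)) ^ 2 = -1 := by
  rw [pow_two]
  ext i j
  fin_cases i <;> fin_cases j <;> simp [wm_coe, Matrix.mul_apply, Fin.sum_univ_two]

theorem tw_cube : (tm (ZMod p) 1 * wm (ZMod p)) ^ 3 = 1 ∨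
    (tm (ZMod p) 1 * wm (ZMod p)) ^ 3 = -1 := by
  left
  rw [pow_succ, pow_two]
  ext i j
  fin_cases i <;> fin_cases j <;> simp [tm_coe, wm_coe, Matrix.mul_apply, Fin.sum_univ_two]

theorem aa_order : orderOf (aa p) = p := by
  apply orderOf_eq_prime
  · rw [aa, ← QuotientGroup.mk_pow, tm_pow]
    simp [tm_zero]
  · intro h
    rw [aa, QuotientGroup.eq_one_iff, Subgroup.mem_center_iff] at h
    have h1 := h (wm (ZMod p))
    have h2 := congrArg (fun g => g 0 0) h1
    simp [tm_coe, wm_coe, Matrix.mul_apply, Fin.sum_univ_two] at h2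

theorem bb_order : orderOf (bb p) = 2 := by
  apply orderOf_eq_prime
  · rw [bb, ← QuotientGroup.mk_pow, wm_sq, QuotientGroup.eq_one_iff]
    exact neg_one_mem p
  · intro h
    rw [bb, QuotientGroup.eq_one_iff, Subgroup.mem_center_iff] at h
    have h1 := h (tm (ZMod p) 1)
    have h2 := congrArg (fun g => g 0 0) h1
    simp [tm_coe, wm_coe, Matrix.mul_apply, Fin.sum_univ_two] at h2

theorem ab_order : orderOf (aa p * bb p) = 3 := by
  apply orderOf_eq_prime
  · rw [aa, bb, ← QuotientGroup.mk_mul, ← QuotientGroup.mk_pow, QuotientGroup.eq_one_iff]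
    rcases tw_cube p with h | h
    · rw [h]; exact Subgroup.one_mem _
    · rw [h]; exact neg_one_mem p
  · intro h
    rw [aa, bb, ← QuotientGroup.mk_mul, QuotientGroup.eq_one_iff, Subgroup.mem_center_iff] at h
    have h1 := h (tm (ZMod p) 1)
    have h2 := congrArg (fun g => g 1 1) h1
    simp [tm_coe, wm_coe, Matrix.mul_apply, Fin.sum_univ_two] at h2

theorem closure_ab (H : Subgroup (PSL p)) (h1 : aa p ∈ H) (h2 : bb p ∈ H) : H = ⊤ := by
  have h3 : H.comap (QuotientGroup.mk' (Subgroup.center (SpecialLinearGroup (Fin 2) (ZMod p)))) = ⊤ :=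
    gen p _ h1 h2
  rw [Subgroup.eq_top_iff']
  intro x
  obtain ⟨y, rfl⟩ := QuotientGroup.mk'_surjective _ x
  have : y ∈ H.comap (QuotientGroup.mk' (Subgroup.center (SpecialLinearGroup (Fin 2) (ZMod p)))) := by
    rw [h3]; trivial
  exact this

end Pool.Agent.Lib.MP_90343c_al
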